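import Pool.Agent.X2.PalReturn

/-! Eventually palindromic complete return words force `T_u(n) = 0` for all large `n`. -/

namespace Pool.Agent.Results.MP_0fbb7a_co.PalindromicReturns

open Pool.Agent.X2.PalDefect

/-- Q1: let the language of `u` be closed under reversal and contain infinitely many palindromes,
and let all complete return words of palindromic factors of length at least `K` be palindromes.
Then `T_u(n) = 0` for all large `n`. -/
theorem result {A : Type*} [Finite A] (u : ℕ → A)
    (hclosed : ∀ w ∈ Lang u, w.reverse ∈ Lang u)
    (hinf : {w | w ∈ Lang u ∧ w.reverse = w}.Infinite) (K : ℕ)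
    (hK : ∀ w ∈ Lang u, w.reverse = w → K ≤ w.length →
      ∀ v, IsCompleteReturn u v w → v.reverse = v) :
    ∃ N, ∀ n ≥ N, T u n = 0 :=
  eventually_zero_of_palReturns hclosed hinf (K := K) hK

end Pool.Agent.Results.MP_0fbb7a_co.PalindromicReturns
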